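import Pool.Agent.TH585.SV.Fib6

/-!
# Varieties without tensor differentials have no highly ramified maps to projective space

Let `X` be a smooth projective variety of dimension `N`, `f` a rational map from `X` to
`n`-dimensional projective space whose image is not contained in a hyperplane, `d` the dimension of
the image, `1 ≤ d < N`; the image may be any nondegenerate subvariety of dimension `d`, and the
fibres of `f`, of dimension `N - d`, are arbitrary (uniruled, of general type, reducible, …). Let
`H i` (`i < q`) be finitely many hyperplanes, in arbitrary position, which have no common point, and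
let `c` be the number of the components of this arrangement: `(n+1)`-space is the direct sum of `c`
nonzero subspaces such that each linear form is a function of the coordinate in one of them, and
there is no such decomposition into `c + 1` subspaces (for instance `c = 1` if there are `n + 2`
hyperplanes in general position). Put

  `s = (n + 3 - c) (n - d + 1) (n - d + 2) / 2`

(if `c = 1` and there are at least `n + 3` different hyperplanes, then `n + 1` can be taken instead of
`n + 2`). The theorem: if `H⁰ (X, (Ω¹) ^ ⊗ r) = 0` for all `r ≥ 1`, then the pullbacks `D i` of the
hyperplanes (divisors without fixed component in the linear system of `f`) have a component `P` such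
that the multiplicities of `P` in any two divisors `D i`, `D i'` of one component of the arrangement
differ by less than `s`; if `c = 1` this says that the multiplicity of `P` in all `D i` is less than
`s`. In other words: if all components of the divisors `D i` have multiplicities which are this
large then `X` has a nonzero holomorphic tensor differential, so `X` is not rationally connected, and
Mumford's problem (Q1) has a positive answer for `X`.

The number `q` of hyperplanes does not appear in the bound. The tensor differential which is found
is a section of `(Ω ^ d) ^ ⊗ M`, a power of a saturated line subbundle of `Ω ^ d` which is given by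
the pullbacks of `d`-forms of the image (so a Bogomolov sheaf of nonnegative Kodaira dimension). For
`d = N` it is a pluricanonical form; this case is in `LinearSystemNonvanishing` (`MP_bc213e_ag`) and
`ArrangementPairs` of helper766, and is excluded here.

The function-field language of the starting repository is used. `K` is the function field of `X`;
the prime divisors of `X` are places `P` of `K` (`Place`, `Divisorial`), `P.ord` is the order along
`P`, and `X` is given by the set of its prime divisors. The rational map is given by the finite
dimensional space `V` of rational functions (the linear system); if `a` is the minimum of the orders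
at `P` of the elements of `V` then the multiplicity of `P` in the divisor of `f ∈ V` is `P.ord f - a`.
A tensor differential of degree `r` is a `K`-multilinear function of `r` rational vector fields
(derivations of `K`); it is holomorphic if its values on vector fields which are regular at `P` are
regular at `P`, for all prime divisors `P` of `X` (`Ω¹` is locally free, `X` is smooth).

Proof (`Pool.Agent.TH585.SV`, files `Blk`, `Ord`, `Fib` to `Fib6`). Let `t` be `d` elements of a
transcendence basis of `K` which are quotients of members of `V`, and `Dt` the dual vector fields.
The coefficient of the tensor `(dt₁ ∧ … ∧ dt_d) ^ ⊗ M` is a power of a generalised Wronskian of `V`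
along `Dt`, whose rows are a basis of `V`, the derivatives along `Dt` and `n - d` words in the first
order operators of helper152 (`Pool.Agent.TH152.HY.Words`), divided by a product of members. It
changes by the power of the determinant if `Dt` is replaced by any vector fields of `X` (they need
not be liftings of vector fields of the image), and the orders are estimated for regular vector
fields at each prime divisor.
-/

set_option autoImplicit false

open FF Pool.Agent.W602.GT

namespace Pool.Agent.Results.MP_4329d7_ag.MildRamification

/-- The function field of the image of the rational map which is given by the linear system `V`: the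
field generated by the quotients of the members. -/
noncomputable def ImageField {K : Type} [Field K] [Algebra ℂ K] (V : Submodule ℂ K) :
    IntermediateField ℂ K :=
  IntermediateField.adjoin ℂ {y : K | ∃ f ∈ V, ∃ g ∈ V, y = f / g}

/-- `γ` is a decomposition of the arrangement of the members `φ i` of `V` into `c` components: `V`
has a basis of `n + 1` elements `x a`, divided into `c` nonempty groups (`x a` is in the group `g a`),
such that `φ i` is in the subspace spanned by the elements of the group `γ i`. -/
def Decomposition (n : ℕ) {q c : ℕ} {K : Type} [Field K] [Algebra ℂ K] (V : Submodule ℂ K)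
    (φ : Fin q → K) (γ : Fin q → Fin c) : Prop :=
  ∃ (x : Fin (n + 1) → K) (g : Fin (n + 1) → Fin c), LinearIndependent ℂ x ∧
    Submodule.span ℂ (Set.range x) = V ∧ Function.Surjective g ∧
    ∀ i, φ i ∈ Submodule.span ℂ (x '' {a | g a = γ i})

/-- There are `r` members `φ i` of which no two are proportional. -/
def Different (r : ℕ) {q : ℕ} {K : Type} [Field K] [Algebra ℂ K] (φ : Fin q → K) : Prop :=
  ∃ τ : Fin r → Fin q, ∀ i j, i ≠ j → ∀ t : ℂ, φ (τ i) ≠ t • φ (τ j)

/-- `ω` is a holomorphic tensor differential of degree `r` on `X`, a smooth projective variety of
dimension `N` which is given by the set of its prime divisors: a section of `(Ω¹) ^ ⊗ r`. -/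
def IsHolomorphic {K : Type} [Field K] [Algebra ℂ K] (N : ℕ) (X : Set (Place ℂ K)) {r : ℕ}
    (ω : MultilinearMap K (fun _ : Fin r => Derivation ℂ K K) K) : Prop :=
  ∀ P ∈ X, Divisorial N P → ∀ D : Fin r → Derivation ℂ K K, (∀ j, DerReg P (D j)) → P.Reg (ω D)

/-- `H⁰ (X, (Ω¹) ^ ⊗ r) = 0` for all `r ≥ 1`. -/
def NoTensors {K : Type} [Field K] [Algebra ℂ K] (N : ℕ) (X : Set (Place ℂ K)) : Prop :=
  ∀ r : ℕ, 1 ≤ r → ∀ ω : MultilinearMap K (fun _ : Fin r => Derivation ℂ K K) K,
    IsHolomorphic N X ω → ω = 0

/-- **Mild ramification.** Let `K` be the function field of a smooth projective variety `X` of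
dimension `N` without holomorphic tensor differentials of positive degree, and `V` a linear system
of dimension `n` on `X` whose rational map has an image of dimension `d`, `1 ≤ d < N`, `d ≤ n`. Let
`φ i` be nonzero members which span `V`, `γ` their decomposition into `c` components (there is no
decomposition into `c + 1` components), and `R = n + 3 - c`, or `R = n + 1` if `c = 1` and there are
`n + 3` different members. Then `X` has a prime divisor `P` which is a component of the divisor of
some `φ i` (without the fixed components of the linear system), such that the multiplicities of `P`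
in the divisors of any two `φ i`, `φ i'` with `γ i' = γ i` differ by less than
`R (n - d + 1) (n - d + 2) / 2`. -/
theorem result (N d n q c : ℕ) (hd : 1 ≤ d) (hdN : d < N) (hdn : d ≤ n) (K : Type) [Field K]
    [Algebra ℂ K] (hK : Algebra.trdeg ℂ K = N) (X : Set (Place ℂ K)) (hX : NoTensors N X)
    (V : Submodule ℂ K) (hV : Algebra.trdeg ℂ (ImageField V) = d)
    (φ : Fin q → K) (hφ0 : ∀ i, φ i ≠ 0) (hφ : Submodule.span ℂ (Set.range φ) = V)
    (γ : Fin q → Fin c) (hγ : Decomposition n V φ γ)
    (hc : ∀ γ' : Fin q → Fin (c + 1), ¬ Decomposition n V φ γ')
    (R : ℕ) (hR : R + c = n + 3 ∨ (c = 1 ∧ Different (n + 3) φ ∧ R = n + 1)) :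
    ∃ P ∈ X, Divisorial N P ∧ ∃ a : ℤ, (∀ f ∈ V, f = 0 ∨ a ≤ P.ord f) ∧
      (∃ f ∈ V, f ≠ 0 ∧ P.ord f = a) ∧ (∃ i, P.ord (φ i) ≠ a) ∧
      ∀ i i', γ i' = γ i →
        2 * ((P.ord (φ i) - P.ord (φ i') : ℤ) : ℝ) <
          R * (((n : ℝ) - d + 1) * ((n : ℝ) - d + 2)) := by
  obtain ⟨k, rfl⟩ := Nat.exists_eq_add_of_le hdn
  obtain ⟨e, rfl⟩ := Nat.exists_eq_add_of_le hdN.le
  have e1 : ((d + k : ℕ) : ℝ) - d = (k : ℝ) := by
    push_cast
    ring
  rw [e1]
  by_contra hcon
  obtain ⟨M, hM, ω, hω, h⟩ := Pool.Agent.TH585.SV.lin_tens (N := d + e) (k := k) hd rfl hK
    (V := V) hV hφ0 hφ hγ hc hR X (s := R * (((k : ℝ) + 1) * (k + 2)) / 2) (by linarith)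
    (fun P hPX hPd a h1 h2 h3 => by
      by_contra hcon2
      refine hcon ⟨P, hPX, hPd, a, h1, h2, h3, fun i i' hii => ?_⟩
      by_contra hcon3
      exact hcon2 ⟨i, i', hii, by linarith⟩)
  exact hω (hX (M * d) (Nat.mul_pos hM hd) ω h)

end Pool.Agent.Results.MP_4329d7_ag.MildRamification
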