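import Pool.Agent.TH756.PN.TenM

/-!
# Varieties without tensor differentials and maps to products of projective spaces

Let `X` be a smooth projective variety of dimension `M` and `X ⇢ ∏ i, ℙ ^ (n i)` a dominant rational
map; the fibres, of any dimension, are arbitrary. For `i < r` let `ℓ i k = 0`, `k < q i`, be
hyperplanes in projective `n i`-space, an arbitrary arrangement (general position is not assumed).
For a prime divisor `P` of `X` let `v i k` be the multiplicity of the hyperplane `ℓ i k = 0` at `P`
(for the divisors without fixed component which the map defines). For each factor let `g i` be one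
of the following functions of the multiplicities `v i k`: `(max v i k) / (n i + 2)`, or
`(max v i k) / (n i + 1)` if the arrangement does not consist of `n i + 2` hyperplanes in general
position (for these two the arrangement must not be reducible), or the (combinatorial) log
discrepancy with respect to a log Calabi-Yau pair `(ℙ ^ (n i), ∑ w k H k)` with rational weights
`w k` on the hyperplanes `H k`.

The theorem: if `H⁰ (X, (Ω¹) ^ ⊗ m) = 0` for all `m ≥ 1`, then `X` has a prime divisor `P` whose image
lies in one of the hyperplanes such that `∑ i, g i (v i) < 1`. In other words: if the sum of the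
bounds of the factors is at least `1` at all such prime divisors then `X` has a nonzero holomorphic
tensor differential, so `X` is not rationally connected, and Mumford's problem (Q1) has a positive
answer for `X`.

For instance let `r = 2`, `n i = 1`, and let the arrangements consist of four points with the weights
`1 / 2`. Then `g i (v i) = (max v i k) / 2`, and the condition is that all multiplicities are at
least `2` at the prime divisors of `X` whose image is one of the `8` curves; at the prime divisors
whose image is a point on two of these curves the sum is at least `1` anyway (the condition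
`g i (v i) ≥ 1` on each factor alone might not be satisfied there).

The tensor differential which is found is a section of `(Ω ^ d) ^ ⊗ T`, where `d = ∑ i, n i`, a power
of the saturated line subbundle of `Ω ^ d` which is given by the pullbacks of the `d`-forms of the
product (a Bogomolov sheaf of nonnegative Kodaira dimension).

The function-field language of the starting repository is used. `K` is the function field of `X`, the
coordinates of the map to the `i`-th factor are `x i 0, ..., x i (n i)`; the prime divisors of `X` are
places `P` of `K` (`Place`, `Divisorial`), `P.ord` is the order along `P`, and `X` is given by the set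
of its prime divisors. A tensor differential of degree `m` is a `K`-multilinear function of `m`
rational vector fields (derivations of `K`); it is holomorphic if its values on vector fields which
are regular at `P` are regular at `P`, for all prime divisors `P` of `X` (`Ω¹` is locally free, `X` is
smooth).
-/

set_option autoImplicit false

open FF Module Pool.Agent.W602.Cov Pool.Agent.W602.GT Pool.Agent.TH152.AC

namespace Pool.Agent.Results.MP_4329d7_ag.MultiprojectiveTensors

section bounds

variable {n q : ℕ}

/-- In suitable linear coordinates `X 0, ..., X n` each of the hyperplanes is one of `X j = 0` or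
`X 0 + ... + X n = 0`. The arrangements with this property which are not reducible are, up to
repetitions, the arrangements of `n + 2` hyperplanes in general position. -/
def Simplicial (ℓ : Fin q → Form n) : Prop :=
  ∃ X : Basis (Fin (n + 1)) ℂ (Form n), ∀ i,
    (∃ c : ℂ, ℓ i = c • ∑ j, X j) ∨ ∃ (j : Fin (n + 1)) (c : ℂ), ℓ i = c • X j

/-- `(ℙ ^ n, ∑ w k H k)` is a log Calabi-Yau pair with rational weights: `w` is a rational convex
combination of the vectors with entries `1` for the `n + 1` hyperplanes of a basis `B` (that is, of
`n + 1` linearly independent ones) and `0` for all others. -/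
def LogCalabiYau (ℓ : Fin q → Form n) (w : Fin q → ℚ) : Prop :=
  ∃ p : Bases ℓ → ℕ, 0 < ∑ B, p B ∧ ∀ k, (∑ B, (p B : ℚ)) * w k =
    ∑ B, (p B : ℚ) * ((Finset.univ.filter fun a => B.1 a = k).card : ℚ)

/-- The maximum of the sums of the `v k` over the bases, minus the sum of the `w k * v k`. This is the
log discrepancy of the pair `(ℙ ^ n, ∑ w k H k)` at the toric divisors over the projective space along
which the hyperplanes have the multiplicities `v k`, and a lower bound for it at all divisors with
these multiplicities. -/
noncomputable def logDiscrepancy (ℓ : Fin q → Form n) (w : Fin q → ℚ) (v : Fin q → ℕ) : ℚ :=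
  ((Finset.univ.sup fun B : Bases ℓ => ∑ a, v (B.1 a) : ℕ) : ℚ) - ∑ k, w k * v k

/-- The bounds for one arrangement. -/
inductive Bound (ℓ : Fin q → Form n) : ((Fin q → ℕ) → ℚ) → Prop
  | irreducible : ¬ Reducible ℓ →
      Bound ℓ fun v => ((Finset.univ.sup v : ℕ) : ℚ) / ((n + 2 : ℕ) : ℚ)
  | notSimplicial : ¬ Reducible ℓ → ¬ Simplicial ℓ →
      Bound ℓ fun v => ((Finset.univ.sup v : ℕ) : ℚ) / ((n + 1 : ℕ) : ℚ)
  | logCalabiYau (w : Fin q → ℚ) : LogCalabiYau ℓ w → Bound ℓ (logDiscrepancy ℓ w)

end bounds

/-- The value of a linear form at a vector over `K`. -/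
noncomputable def form {n : ℕ} {K : Type} [Field K] [Algebra ℂ K] (φ : Form n)
    (x : Fin (n + 1) → K) : K := ∑ j, algebraMap ℂ K (φ (Pi.single j 1)) * x j

section divisors

variable {r : ℕ} {n q : Fin r → ℕ} {K : Type} [Field K] [Algebra ℂ K]

/-- The affine coordinates of the product of the projective spaces. -/
noncomputable def affine (x : ∀ i, Fin (n i + 1) → K) (b : (i : Fin r) × Fin (n i)) : K :=
  x b.1 b.2.succ / x b.1 0

/-- The hyperplanes `ℓ i k` have the multiplicities `v i k` at `P`: their orders are `a i + v i k`,
where `a i` is the minimum of the orders of all linear forms on the `i`-th factor. -/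
def Multiplicities (ℓ : ∀ i, Fin (q i) → Form (n i)) (x : ∀ i, Fin (n i + 1) → K)
    (P : Place ℂ K) (a : Fin r → ℤ) (v : ∀ i, Fin (q i) → ℕ) : Prop :=
  (∀ i (φ : Form (n i)), form φ (x i) = 0 ∨ a i ≤ P.ord (form φ (x i))) ∧
    (∀ i, ∃ φ : Form (n i), form φ (x i) ≠ 0 ∧ P.ord (form φ (x i)) = a i) ∧
    ∀ i k, P.ord (form (ℓ i k) (x i)) = a i + v i k

end divisors

/-- `ω` is a holomorphic tensor differential of degree `m` on `X`, a smooth projective variety of
dimension `M` which is given by the set of its prime divisors: a section of `(Ω¹) ^ ⊗ m`. -/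
def IsHolomorphic {K : Type} [Field K] [Algebra ℂ K] (M : ℕ) (X : Set (Place ℂ K)) {m : ℕ}
    (ω : MultilinearMap K (fun _ : Fin m => Derivation ℂ K K) K) : Prop :=
  ∀ P ∈ X, Divisorial M P → ∀ D : Fin m → Derivation ℂ K K, (∀ j, DerReg P (D j)) → P.Reg (ω D)

/-- `H⁰ (X, (Ω¹) ^ ⊗ m) = 0` for all `m ≥ 1`. -/
def NoTensors {K : Type} [Field K] [Algebra ℂ K] (M : ℕ) (X : Set (Place ℂ K)) : Prop :=
  ∀ m : ℕ, 1 ≤ m → ∀ ω : MultilinearMap K (fun _ : Fin m => Derivation ℂ K K) K,
    IsHolomorphic M X ω → ω = 0

/-- **Mild ramification.** Let `K` be the function field of a smooth projective variety `X` of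
dimension `M` without holomorphic tensor differentials of positive degree, with a dominant rational
map to the product of the projective `n i`-spaces, and let `g i` be bounds for the arrangements
`ℓ i`. Then there is a prime divisor `P` of `X` whose image lies in one of the hyperplanes such that
the sum of the bounds for the multiplicities of the hyperplanes at `P` is less than `1`. -/
theorem result (M r : ℕ) (n q : Fin r → ℕ) (hr : 1 ≤ r) (hn : ∀ i, 1 ≤ n i)
    (ℓ : ∀ i, Fin (q i) → Form (n i)) (hℓ : ∀ i k, ℓ i k ≠ 0)
    (g : ∀ i, (Fin (q i) → ℕ) → ℚ) (hg : ∀ i, Bound (ℓ i) (g i))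
    (K : Type) [Field K] [Algebra ℂ K] (hK : Algebra.trdeg ℂ K = M)
    (X : Set (Place ℂ K)) (hX : NoTensors M X)
    (x : ∀ i, Fin (n i + 1) → K) (hx : ∀ i, x i 0 ≠ 0) (hdom : AlgebraicIndependent ℂ (affine x)) :
    ∃ P ∈ X, Divisorial M P ∧ ∃ a v, Multiplicities ℓ x P a v ∧ (∃ i, v i ≠ 0) ∧
      ∑ i, g i (v i) < 1 := by
  have hwtd : ∀ i, Pool.Agent.TH756.PN.Wtd (ℓ i) (g i) := by
    intro i
    obtain ⟨G, hG⟩ : ∃ G, G = g i := ⟨_, rfl⟩
    have h1 := hg i
    rw [← hG] at h1 ⊢
    cases h1 with
    | irreducible h2 =>
      exact Pool.Agent.TH756.PN.wtd_slack (by omega)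
        (Pool.Agent.TH756.PR.slack_of_bnd (hn i) (hℓ i) h2 (Or.inl rfl))
        (Pool.Agent.W392.CG.span_top (hn i) (ℓ i) h2)
    | notSimplicial h2 h3 =>
      exact Pool.Agent.TH756.PN.wtd_slack (by omega)
        (Pool.Agent.TH756.PR.slack_of_bnd (hn i) (hℓ i) h2 (Or.inr ⟨rfl, Or.inr h3⟩))
        (Pool.Agent.W392.CG.span_top (hn i) (ℓ i) h2)
    | logCalabiYau w h2 => exact Pool.Agent.TH756.PN.BasePt.wtd h2
  by_contra hcon
  obtain ⟨T, hT, ω, hω, h⟩ := Pool.Agent.TH756.PN.tens_main (K := K) (x := x) (ℓ := ℓ) hK hℓ g
    hwtd hx hdom X (fun P hP hd a v hv hv0 => by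
      by_contra hlt
      exact hcon ⟨P, hP, hd, a, v, hv, hv0, lt_of_not_ge hlt⟩)
  refine hω (hX _ (Nat.mul_pos hT ?_) ω h)
  exact lt_of_lt_of_le (hn ⟨0, hr⟩)
    (Finset.single_le_sum (f := n) (fun _ _ => Nat.zero_le _) (Finset.mem_univ _))

end Pool.Agent.Results.MP_4329d7_ag.MultiprojectiveTensors
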