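import Pool.Agent.TH710.SP.Res

/-! Mumford's problem on tensor differentials for varieties given by nested sums of high powers. -/

set_option autoImplicit false

open Pool.Agent.W602.GT Pool.Agent.TH710.ND Pool.Agent.TH710.SP

namespace Pool.Agent.Results.MP_4329d7_ag.NestedTensors

/-- Let `V` be an irreducible component of a projective variety in `P^n` given by equations which are
nested sums of few high powers of linear forms, with function field `K`. If the smooth projective
varieties with function field `K` have no tensor differentials of degree `1, ..., B`, for the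
explicit bound `B = n ^ 2 (H + 1) (2 s) ^ 2 (2 s + 1) (2 s - 1) (s - 1)`, then `V` is a linear
subspace of `P^n`. -/
theorem result {k : Type} [Field k] [IsAlgClosed k] [CharZero k] {n : ℕ} {ι : Type}
    {F : ι → MvPolynomial (Fin (n + 1)) k} {s N H : ℕ}
    (hF : ∀ i, IsNested s N H (F i))
    (hN : n * ((H + 1) * (2 * s * (2 * s)) * ((2 * s + 1) *
      ((2 * s - 1) * (2 * s - 2) / 2))) + 1 ≤ N)
    {K : Type} [Field K] [Algebra k K] {w : ℕ} {y : Fin (n + 1) → K}
    (hy : SubVar F K w y) (hcomp : IsComponent F y)
    (hs : NoTensors k K w (n * (n * ((H + 1) * (2 * s * (2 * s)) * ((2 * s + 1) *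
      ((2 * s - 1) * (2 * s - 2) / 2)))))) : IsLinear k y :=
  proj_noTensors hF hN hy hcomp hs

end Pool.Agent.Results.MP_4329d7_ag.NestedTensors
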