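import Pool.Agent.TH466.QT.Fin

/-!
# Mumford's problem for varieties dominated by systems of high powers

Let `V` be an irreducible component, of dimension `w`, of a projective variety in `P^n` given by
equations which are sums of at most `s` powers of linear forms, or by forms with at most `s`
monomials and divisible exponents, and let the exponents be at least `N`, where
`N ≥ r w (s + 4) (s - 1) (s - 2) / 2`. The problem asks whether a smooth projective variety `X`
without holomorphic tensor differentials is rationally connected. It is answered here for all `X`
birational to a quotient `V / G` by a group `G` of at most `r` birational automorphisms, and for all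
`X` with a dominant rational map `V ⇢ X` of degree `d`, `d ! ≤ r`.

The function-field language of the starting repository is used: `K`, `K'` and `L` are the function
fields of `V`, `X'` and `X`; `SubVar`, `IsComponent`: `K` is the function field, and `y` the generic
point, of an irreducible component of dimension `w`; `GeneralType M b`: the variety with function
field `M` has dimension `b` and is of general type (`Pool/Agent/W602/GT`); `TensorVanish L w`:
`H⁰ (X, (Ω¹) ^ ⊗ m) = 0` for all `m ≥ 1`, and `IsUnirational L w`: `L` embeds into
`k(t_1, ..., t_w)` (`Pool/Agent/W619/TW`).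
-/

set_option autoImplicit false

namespace Pool.Agent.Results.MP_4329d7_ag.QuotientTensors

open FF Pool.Agent.W602.GT
open Pool.Agent.W619.TW (TensorVanish IsUnirational)

/-- Let `V`, `w`, `s`, `N`, `r` be as above. Either `V` is rational, so that every variety dominated
by `V` is unirational; or every variety `X` with generically finite dominant rational maps
`X' ⇢ V` (of any degree) and `X' ⇢ X` (the quotient by a group of at most `r` birational
automorphisms of `X'`, or any map of degree `d` with `d ! ≤ r`) has a dominant rational map to a
variety of general type and positive dimension, and has a nonzero holomorphic tensor differential of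
some degree `≥ 1`. In particular (last part, `X' = V`): if `X` is the quotient of `V` by a group of
at most `r` birational automorphisms, or the image of `V` by a rational map of degree `d`,
`d ! ≤ r`, and has no nonzero holomorphic tensor differential, then `X` is unirational, hence
rationally connected. -/
theorem result {k : Type} [Field k] [IsAlgClosed k] [CharZero k] {n : ℕ} {ι : Type}
    {F : ι → MvPolynomial (Fin (n + 1)) k} {s N : ℕ} (hF : HighPowers s N F) (hN1 : 1 ≤ N)
    {K : Type} [Field K] [Algebra k K] {w : ℕ} {y : Fin (n + 1) → K}
    (hy : SubVar F K w y) (hcomp : IsComponent F y) {r : ℕ}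
    (hN : r * (w * ((s + 4) * ((s - 1) * (s - 2) / 2))) ≤ N) :
    (((∃ t : Fin w → K, AlgebraicIndependent k t ∧
          IntermediateField.adjoin k (Set.range t) = ⊤) ∧
        ∀ (L : Type) [Field L] [Algebra k L] [Algebra L K] [IsScalarTower k L K],
          IsUnirational k L w) ∨
      ∀ (K' L : Type) [Field K'] [Field L] [Algebra k K'] [Algebra k L] [Algebra K K']
        [Algebra L K'] [IsScalarTower k K K'] [IsScalarTower k L K'] [Algebra.IsAlgebraic K K']
        [FiniteDimensional L K'],
        ((IsGalois L K' ∧ Module.finrank L K' ≤ r) ∨ (Module.finrank L K').factorial ≤ r) →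
        (∃ b : ℕ, 1 ≤ b ∧ b ≤ w ∧ ∃ M : IntermediateField k L, GeneralType k M b) ∧
          ¬ TensorVanish k L w) ∧
    ∀ (L : Type) [Field L] [Algebra k L] [Algebra L K] [IsScalarTower k L K]
      [FiniteDimensional L K],
      ((IsGalois L K ∧ Module.finrank L K ≤ r) ∨ (Module.finrank L K).factorial ≤ r) →
      TensorVanish k L w → IsUnirational k L w := by
  rcases Pool.Agent.TH466.QT.quot_main hF hN1 hy hcomp hN with h | h
  · obtain ⟨t, ht, htop⟩ := h
    have h1 : ∀ (L : Type) [Field L] [Algebra k L] [Algebra L K] [IsScalarTower k L K],
        IsUnirational k L w := fun L _ _ _ _ =>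
      Pool.Agent.TH466.QT.unirational_of_sub ht htop
    exact ⟨Or.inl ⟨⟨t, ht, htop⟩, h1⟩, fun L _ _ _ _ _ _ _ => h1 L⟩
  · refine ⟨Or.inr fun K' L _ _ _ _ _ _ _ _ _ _ hr => ?_, fun L _ _ _ _ _ hr hT => ?_⟩
    · exact ⟨(h K' L hr).1, (h K' L hr).2.1⟩
    · exact absurd hT (h K L hr).2.1

end Pool.Agent.Results.MP_4329d7_ag.QuotientTensors
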